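import Pool.Agent.TH268.CD.Stm
import Pool.Agent.W761.CB.Par

/-!
# Complete condensation in the canonical ensemble: choice of the parameters
-/

set_option autoImplicit false

namespace Pool.Agent.TH81.CD

open Pool.Agent.W761.CB

theorem par3 : Pool.Agent.TH268.CD.S_PAR3 := by
  intro n hn σ g CP c τ v₁ G e hσ hσn hgn hCP hc hτ hv hG he
  have hn1 : (3 : ℝ) ≤ n := by exact_mod_cast hn
  have two : (0 : ℝ) < 2 := by norm_num
  set κ : ℝ := n - σ with hκ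
  have hκ0 : 0 < κ := by rw [hκ]; linarith
  set mu : ℝ := (2 : ℝ) ^ (-κ) with hmu
  set lam : ℝ := (2 : ℝ) ^ (κ - 2 * n) with hlam
  have hmu0 : 0 < mu := by positivity
  have hlam0 : 0 < lam := by positivity
  have hlm : lam ≤ mu := by
    rw [hlam, hmu]
    exact Real.rpow_le_rpow_of_exponent_le (by norm_num) (by rw [hκ]; linarith)
  have hmu1 : mu < 1 := Real.rpow_lt_one_of_one_lt_of_neg (by norm_num) (by linarith)
  have hlam1 : lam < 1 := lt_of_le_of_lt hlm hmu1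
  set ρ : ℝ := √mu with hρ
  have hρ0 : 0 ≤ ρ := Real.sqrt_nonneg _
  have hmuρ : mu = ρ ^ 2 := (Real.sq_sqrt hmu0.le).symm
  have hρ1 : ρ < 1 := by
    rw [hρ, Real.sqrt_lt' one_pos]
    linarith
  have h1ρ : 0 < 1 - ρ := by linarith
  have h1l : 0 < 1 - lam := by linarith
  set q : ℝ := (2 : ℝ) ^ (-σ / 4) with hq
  have hq1 : q < 1 := Real.rpow_lt_one_of_one_lt_of_neg (by norm_num) (by linarith)
  have h1q : 0 < 1 - q := by linarith
  refine ⟨lam, mu, ρ, q, hlam0, hlm, hmu1, hρ0, hmuρ, ?_, ?_, ?_, rfl, ?_⟩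
  · have h1 : ((2 : ℝ) ^ n) ^ 2 = (2 : ℝ) ^ (2 * n : ℝ) := by
      rw [← pow_mul, ← Real.rpow_natCast]
      congr 1
      push_cast
      ring
    rw [h1, hlam, hmu, ← Real.rpow_add two, ← Real.rpow_add two]
    rw [show κ - 2 * n + 2 * n + -κ = 0 by ring, Real.rpow_zero]
  · rw [hlam, hmu, ← Real.rpow_add two]
    exact Real.rpow_le_rpow_of_exponent_le (by norm_num) (by rw [hκ]; linarith)
  · rw [hlam, ← Real.rpow_natCast, ← Real.rpow_add two]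
    congr 1
    rw [hκ]
    ring
  -- the constants
  set PC : ℝ := CP * 2 ^ ((n : ℝ) + 2) with hPC
  have hPC0 : 0 < PC := by positivity
  set l0 : ℝ := min 1 √(e / (PC * G)) with hl0
  have hl00 : 0 < l0 := lt_min one_pos (Real.sqrt_pos.2 (by positivity))
  have hl01 : l0 ≤ 1 := min_le_left _ _
  have hl0e : PC * l0 ^ 2 * G ≤ e := by
    have h1 : l0 ≤ √(e / (PC * G)) := min_le_right _ _
    have h2 : l0 ^ 2 ≤ e / (PC * G) := by
      calc l0 ^ 2 ≤ √(e / (PC * G)) ^ 2 := pow_le_pow_left₀ hl00.le h1 2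
        _ = e / (PC * G) := Real.sq_sqrt (by positivity)
    rw [le_div_iff₀ (by positivity)] at h2
    linarith
  set K1 : ℝ := √e / 2 with hK1
  have hK10 : 0 < K1 := by
    have := Real.sqrt_pos.2 he
    positivity
  set η : ℝ := ((1 - ρ) * K1 / 16) ^ 2 with hη
  have hη0 : 0 < η := by positivity
  set η4 : ℝ := ((1 - q) * K1 / 4) ^ 2 with hη4
  have hη40 : 0 < η4 := by positivity
  set F1 : ℝ := (2 / l0) ^ (2 * n) / η with hF1
  have hF10 : 0 < F1 := by positivity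
  set B0 : ℝ := 2 + √(7 / (1 - lam)) with hB0
  have hB00 : 0 < B0 := by positivity
  set a1 : ℝ := B0 * v₁ * (1 + η / (1 - lam)) + 25 * v₁ * η + 64 * n / l0 ^ 2 * τ with ha1
  have ha10 : 0 < a1 := by positivity
  set F2 : ℝ := F1 * a1 / (1 - lam) with hF2
  have hF20 : 0 < F2 := by positivity
  set D : ℝ := (1 + 2 * √n) ^ ((n : ℝ) + σ) with hD
  have hD0 : 0 < D := by positivity
  set F3 : ℝ := (2 : ℝ) ^ σ * F2 * (2 / l0) ^ n * D / c with hF3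
  have hF30 : 0 < F3 := by positivity
  obtain ⟨δc, hδc, Qc⟩ := sp ((n : ℝ) - 1 - g) F3 (((1 - ρ) * K1 / 4) ^ 2)
    (by linarith) hF30.le (by positivity)
  refine ⟨l0, min 1 (min (min (η / F1) (e * G / (16 * F2))) (min δc ((1 - lam) / F1))), η4, hl00,
    hl01, lt_min one_pos (lt_min (lt_min (by positivity) (by positivity))
      (lt_min hδc (by positivity))), hη40, ?_⟩
  intro δ hδ hδ0
  have hδ1 : δ ≤ 1 := hδ0.trans (min_le_left _ _)
  have hx2 := hδ0.trans (min_le_right _ _)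
  have hx3 := hx2.trans (min_le_left _ _)
  have hx4 := hx2.trans (min_le_right _ _)
  have hδA : δ ≤ η / F1 := hx3.trans (min_le_left _ _)
  have hδB : δ ≤ e * G / (16 * F2) := hx3.trans (min_le_right _ _)
  have hδD : δ ≤ (1 - lam) / F1 := hx4.trans (min_le_right _ _)
  have Rc := Qc δ hδ.le (hx4.trans (min_le_left _ _))
  refine ⟨hδ1, fun ℓ hℓ1 hℓ2 => ?_⟩
  set y : ℝ := δ ^ (-(1 / 2 : ℝ)) with hy
  have hy0 : 0 < y := by positivity
  have hy2 : y ^ 2 = δ⁻¹ := by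
    rw [hy, ← Real.rpow_natCast, ← Real.rpow_mul hδ.le]
    rw [show -(1 / 2 : ℝ) * ((2 : ℕ) : ℝ) = -1 by push_cast; ring, Real.rpow_neg_one]
  have hyn : y ^ n = δ ^ (-((n : ℝ) / 2)) := by
    rw [hy, ← Real.rpow_natCast, ← Real.rpow_mul hδ.le]
    congr 1
    ring
  have hℓ : 0 < ℓ := lt_of_lt_of_le (by positivity) hℓ1
  have hℓn : (l0 / 2) ^ n * y ^ n ≤ ℓ ^ n := by
    rw [← mul_pow]
    exact pow_le_pow_left₀ (by positivity) (by linarith) n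
  have h4 : (2 / l0) ^ n * (l0 / 2) ^ n = 1 := by
    rw [← mul_pow, show 2 / l0 * (l0 / 2) = 1 by field_simp, one_pow]
  constructor
  · rw [Real.rpow_two]
    calc PC * ℓ ^ 2 * (G * δ) ≤ PC * (l0 * y) ^ 2 * (G * δ) := by gcongr
      _ = PC * l0 ^ 2 * G * (y ^ 2 * δ) := by ring
      _ = PC * l0 ^ 2 * G := by rw [hy2, inv_mul_cancel₀ hδ.ne', mul_one]
      _ ≤ e := hl0e
  set ω0 : ℝ := 1 / (η * δ * (ℓ ^ n) ^ 2) with hω0
  have hω00 : 0 < ω0 := by positivity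
  have hyy : (y ^ n) ^ 2 = (δ ^ n)⁻¹ := by
    rw [← pow_mul, mul_comm, pow_mul, hy2, inv_pow]
  -- `ω0 ≤ F1 δ^(n - 1)`
  have hω1 : ω0 * δ ≤ F1 * δ ^ n := by
    have e1 : (l0 / 2) ^ (2 * n) * (δ ^ n)⁻¹ ≤ (ℓ ^ n) ^ 2 := by
      calc (l0 / 2) ^ (2 * n) * (δ ^ n)⁻¹ = ((l0 / 2) ^ n * y ^ n) ^ 2 := by
            rw [mul_pow, hyy, ← pow_mul, mul_comm n 2]
        _ ≤ (ℓ ^ n) ^ 2 := pow_le_pow_left₀ (by positivity) hℓn 2
    have e2 : (2 / l0) ^ (2 * n) * (l0 / 2) ^ (2 * n) = 1 := by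
      rw [← mul_pow, show 2 / l0 * (l0 / 2) = 1 by field_simp, one_pow]
    calc ω0 * δ = 1 / (η * (ℓ ^ n) ^ 2) := by rw [hω0]; field_simp
      _ ≤ 1 / (η * ((l0 / 2) ^ (2 * n) * (δ ^ n)⁻¹)) := by gcongr
      _ = ((2 / l0) ^ (2 * n) * (l0 / 2) ^ (2 * n)) / (η * ((l0 / 2) ^ (2 * n) * (δ ^ n)⁻¹)) := by
          rw [e2]
      _ = F1 * δ ^ n := by rw [hF1]; field_simp
  have hδn3 : δ ^ n ≤ δ ^ 3 := pow_le_pow_of_le_one hδ.le hδ1 hn
  have hωb : ω0 ≤ η * δ := by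
    have h1 : ω0 * δ ≤ η * δ * δ := by
      calc ω0 * δ ≤ F1 * δ ^ n := hω1
        _ ≤ F1 * δ ^ 3 := by gcongr
        _ = F1 * δ * δ ^ 2 := by ring
        _ ≤ η * δ ^ 2 := by
            gcongr
            rwa [le_div_iff₀ hF10, mul_comm] at hδA
        _ = η * δ * δ := by ring
    exact le_of_mul_le_mul_right h1 hδ
  have hωc : ω0 ≤ (1 - lam) * δ := by
    have h1 : ω0 * δ ≤ (1 - lam) * δ * δ := by
      calc ω0 * δ ≤ F1 * δ ^ n := hω1
        _ ≤ F1 * δ ^ 3 := by gcongr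
        _ = F1 * δ * δ ^ 2 := by ring
        _ ≤ (1 - lam) * δ ^ 2 := by
            gcongr
            rwa [le_div_iff₀ hF10, mul_comm] at hδD
        _ = (1 - lam) * δ * δ := by ring
    exact le_of_mul_le_mul_right h1 hδ
  refine ⟨ω0, hω00, hωc, ?_⟩
  intro ξ N1 A1 es H T hT hξ hN1 hA1 hes hH
  have hξ1 : ξ = η * δ := by
    rw [hξ, hω0]
    field_simp
  have hξω : ξ + ω0 ≤ 2 * η * δ := by
    rw [hξ1]
    linarith only [hωb]
  have hξω0 : 0 ≤ ξ + ω0 := by rw [hξ1]; positivity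
  have hN1le : N1 ≤ (1 + η / (1 - lam)) * δ := by
    have : ω0 / (1 - lam) ≤ η * δ / (1 - lam) := by gcongr
    rw [hN1]
    calc δ + ω0 / (1 - lam) ≤ δ + η * δ / (1 - lam) := by linarith
      _ = _ := by ring
  have hN10 : 0 ≤ N1 := by rw [hN1]; positivity
  have hA1le : A1 ≤ a1 * δ := by
    rw [hA1, ha1]
    have h5 : B0 * v₁ * N1 ≤ B0 * v₁ * ((1 + η / (1 - lam)) * δ) := by gcongr
    have h7 : 25 * ω0 * v₁ ≤ 25 * (η * δ) * v₁ := by gcongr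
    linarith only [h5, h7]
  have hA10 : 0 ≤ A1 := by rw [hA1]; positivity
  have hes0 : 0 ≤ es := by rw [hes]; positivity
  have hes1 : es ≤ F2 * δ ^ n := by
    calc es = ω0 * A1 / (1 - lam) := hes
      _ ≤ ω0 * (a1 * δ) / (1 - lam) := by gcongr
      _ = (ω0 * δ) * a1 / (1 - lam) := by ring
      _ ≤ (F1 * δ ^ n) * a1 / (1 - lam) := by gcongr
      _ = F2 * δ ^ n := by rw [hF2]; ring
  constructor
  · calc es ≤ F2 * δ ^ n := hes1
      _ ≤ F2 * δ ^ 3 := by gcongr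
      _ = F2 * δ * δ ^ 2 := by ring
      _ ≤ F2 * (e * G / (16 * F2)) * δ ^ 2 := by gcongr
      _ = e * G * δ ^ 2 / 16 := by field_simp
  have hsδ : 0 < √δ := Real.sqrt_pos.2 hδ
  have b4 : √η = (1 - ρ) * K1 / 16 := by rw [hη, Real.sqrt_sq (by positivity)]
  have b1 : √(2 * (ξ + ω0)) ≤ 2 * ((1 - ρ) * K1 / 16) * √δ := by
    rw [Real.sqrt_le_left (by positivity), mul_pow, Real.sq_sqrt hδ.le, mul_pow, ← hη]
    linarith only [hξω]
  have b2 : √(ξ + ω0) ≤ 2 * ((1 - ρ) * K1 / 16) * √δ := by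
    refine (Real.sqrt_le_sqrt ?_).trans b1
    linarith
  have b3 : √((2 : ℝ) ^ σ * es /
      (ℓ ^ n * (c * δ ^ (g + n / 2) * (1 + 2 * √n) ^ (-(n + σ))))) ≤
      ((1 - ρ) * K1 / 4) * √δ := by
    rw [Real.sqrt_le_left (by positivity), mul_pow, Real.sq_sqrt hδ.le]
    have hDinv : (1 + 2 * √(n : ℝ)) ^ (-((n : ℝ) + σ)) = D⁻¹ := by
      rw [hD, Real.rpow_neg (by positivity)]
    rw [hDinv, div_le_iff₀ (by positivity)]
    have e5 : y ^ n * δ ^ (g + n / 2) = δ ^ g := by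
      rw [hyn, ← Real.rpow_add hδ]
      congr 1
      ring
    have e6 : δ ^ n = δ ^ ((n : ℝ) - 1 - g) * δ * δ ^ g := by
      nth_rewrite 3 [← Real.rpow_one δ]
      rw [← Real.rpow_natCast δ n, ← Real.rpow_add hδ, ← Real.rpow_add hδ]
      congr 1
      ring
    calc (2 : ℝ) ^ σ * es ≤ (2 : ℝ) ^ σ * (F2 * δ ^ n) := by gcongr
      _ = F3 * δ ^ ((n : ℝ) - 1 - g) * δ * ((l0 / 2) ^ n * (c * δ ^ g * D⁻¹)) := by
          have hD1 : D * D⁻¹ = 1 := mul_inv_cancel₀ hD0.ne'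
          have hc1' : c / c = 1 := div_self hc.ne'
          rw [e6, hF3]
          calc (2 : ℝ) ^ σ * (F2 * (δ ^ ((n : ℝ) - 1 - g) * δ * δ ^ g))
              = ((2 / l0) ^ n * (l0 / 2) ^ n) * (D * D⁻¹) * (c / c) *
                ((2 : ℝ) ^ σ * (F2 * (δ ^ ((n : ℝ) - 1 - g) * δ * δ ^ g))) := by
                rw [h4, hD1, hc1']
                ring
            _ = _ := by ring
      _ ≤ ((1 - ρ) * K1 / 4) ^ 2 * δ * ((l0 / 2) ^ n * (c * δ ^ g * D⁻¹)) := by gcongr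
      _ = ((1 - ρ) * K1 / 4) ^ 2 * δ * ((l0 / 2) ^ n * y ^ n * (c * δ ^ (g + n / 2) * D⁻¹)) := by
          rw [← e5]; ring
      _ ≤ ((1 - ρ) * K1 / 4) ^ 2 * δ * (ℓ ^ n * (c * δ ^ (g + n / 2) * D⁻¹)) := by gcongr
  have hHle : H / (1 - ρ) ≤ K1 * √δ / 2 := by
    rw [div_le_iff₀ h1ρ, hH]
    linarith only [b1, b2, b3]
  have hTle : √T / (1 - q) ≤ K1 * √δ / 4 := by
    rw [div_le_iff₀ h1q]
    calc √T ≤ √(η4 * δ) := Real.sqrt_le_sqrt hT
      _ = (1 - q) * K1 / 4 * √δ := by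
          rw [hη4, Real.sqrt_mul' _ hδ.le, Real.sqrt_sq (by positivity)]
      _ = K1 * √δ / 4 * (1 - q) := by ring
  have hfst : √(ξ + ω0) ≤ K1 * √δ / 8 := by
    refine b2.trans ?_
    have h1 : 0 ≤ ρ * (K1 * √δ) := by positivity
    linarith only [h1]
  have hend : √e * √δ / 2 = K1 * √δ := by
    rw [hK1]
    ring
  rw [hend]
  have h0 : 0 ≤ K1 * √δ := by positivity
  linarith only [hHle, hTle, hfst, h0]

end Pool.Agent.TH81.CD
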